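import Mathlib.GroupTheory.Index
import Mathlib.GroupTheory.GroupAction.Quotient
import Mathlib.GroupTheory.Perm.Basic
import Mathlib.Data.Nat.Prime.Factorial
import Mathlib.Data.Fintype.Perm
import Mathlib.GroupTheory.OrderOfElement
import Mathlib.Data.Set.Finite.Basic
import Mathlib.Order.Interval.Finset.Nat

/-!
# Subgroups of index smaller than `ℓ`
-/

universe u

namespace Pool.Agent.TH116.IG

/-- The subgroup generated by the elements which are `n`-th powers for all `n` prime to `ℓ` (for an
`ℓ`-adic group: the elements of pro-`ℓ` subgroups are of this kind). -/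
def plus (l : ℕ) (G : Type u) [Group G] : Subgroup G :=
  Subgroup.closure {x | ∀ n : ℕ, Nat.Coprime n l → ∃ y : G, y ^ n = x}

/-- A subgroup of finite index smaller than the prime `ℓ` contains the subgroup `plus ℓ G`. -/
theorem plus_le {l : ℕ} (hl : l.Prime) {G : Type u} [Group G] (H : Subgroup G)
    (h0 : H.index ≠ 0) (h : H.index < l) : plus l G ≤ H := by
  classical
  rw [plus, Subgroup.closure_le]
  intro x hx
  have : H.FiniteIndex := ⟨h0⟩
  have : Fintype (G ⧸ H) := H.fintypeQuotientOfFiniteIndex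
  obtain ⟨y, rfl⟩ := hx (Nat.factorial H.index)
    ((Nat.Coprime.symm ((Nat.Prime.coprime_iff_not_dvd hl).2 fun hd =>
      absurd ((Nat.Prime.dvd_factorial hl).1 hd) (not_le.2 h))))
  have hc : Nat.factorial H.index = Fintype.card (Equiv.Perm (G ⧸ H)) := by
    rw [Fintype.card_perm, Subgroup.index_eq_card, Nat.card_eq_fintype_card]
  have h1 : MulAction.toPermHom G (G ⧸ H) (y ^ Nat.factorial H.index) = 1 := by
    rw [map_pow, hc, pow_card_eq_one]
  have h2 : (y ^ Nat.factorial H.index) ∈ H.normalCore := by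
    rw [Subgroup.normalCore_eq_ker]
    exact h1
  exact H.normalCore_le h2

/-- A family of subgroups `H_ℓ` of groups `G_ℓ` such that the index of `H_ℓ G_ℓ⁺` is bounded: the index of
`H_ℓ` is finite and bounded if and only if it is finite for all `ℓ` and smaller than `ℓ` for all but
finitely many `ℓ`. -/
theorem bounded_iff (G : Nat.Primes → Type u) [∀ l, Group (G l)] (H : ∀ l, Subgroup (G l))
    (h0 : ∃ C : ℕ, ∀ l : Nat.Primes, (H l ⊔ plus l (G l)).index ≤ C) :
    (∃ C : ℕ, ∀ l, (H l).index ≠ 0 ∧ (H l).index ≤ C) ↔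
      (∀ l, (H l).index ≠ 0) ∧ {l : Nat.Primes | (l : ℕ) ≤ (H l).index}.Finite := by
  constructor
  · rintro ⟨C, hC⟩
    refine ⟨fun l => (hC l).1, ?_⟩
    have h1 : {l : Nat.Primes | (l : ℕ) ≤ C}.Finite :=
      Set.Finite.preimage (s := Set.Iic C) (Subtype.val_injective.injOn) (Set.finite_Iic C)
    exact h1.subset fun l hl => le_trans hl (hC l).2
  · rintro ⟨h1, h2⟩
    obtain ⟨C, hC⟩ := h0
    refine ⟨max C (h2.toFinset.sup fun l => (H l).index), fun l => ⟨h1 l, ?_⟩⟩
    by_cases hl : (l : ℕ) ≤ (H l).index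
    · exact le_max_of_le_right (Finset.le_sup (f := fun l => (H l).index)
        (h2.mem_toFinset.2 hl))
    · refine le_max_of_le_left ?_
      have h3 : plus l (G l) ≤ H l := plus_le l.2 (H l) (h1 l) (not_le.1 hl)
      have h4 := hC l
      rwa [sup_eq_left.2 h3] at h4

end Pool.Agent.TH116.IG
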